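import Pool.Agent.H365.TF.Fin
import Pool.Agent.H365.LS.All
import Pool.Agent.H134.LZ.HT
import Pool.Agent.H662.TF.BS
import Pool.Agent.H200.TF.RNG
import Pool.Agent.H864.TF.SEMI
import Pool.Agent.H747.TF.KT
import Pool.Agent.H407.TF.QG
import Pool.Agent.H282.TF.COP
import Pool.Agent.H806.TF.NT1
import Pool.Agent.H997.TF.NT2
import Pool.Agent.H236.TF.TFS
import Pool.Agent.H974.TF.RFT
import Pool.Agent.H233.TF.FI
import Pool.Agent.H707.TF.WFG
import Pool.Agent.H763.TF.TFI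

/-!
# Project TF: the theorem
-/

set_option autoImplicit false

namespace Pool.Agent.H365.TF

open Pool.Agent.W661.RC (HasT)
open Pool.Agent.H21R2 (IsHyperlinear)

theorem t_KT' : S_KT := t_KT t_SEMI

theorem t_TFS' : S_TFS := t_TFS (t_NT2 (t_NT1 t_COP))

theorem goal :
    ∃ (G : Type) (_ : Group G) (X : Type) (_ : MulAction G X), HasT G ∧ Group.FG G ∧ IsRF G ∧
      TFree G ∧ Group.FG (WreathProduct (Multiplicative ℤ) X G) ∧
      TFree (WreathProduct (Multiplicative ℤ) X G) ∧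
      ¬ IsHyperlinear (WreathProduct (Multiplicative ℤ) X G) :=
  main t_BS t_RNG Pool.Agent.H365.LZ.t_HT Pool.Agent.H365.LS.t_WHI Pool.Agent.H365.LS.t_UNION
    t_KM t_KT' (t_QG Pool.Agent.H365.LS.t_WHI) t_TFS' t_RFT t_FI t_WFG t_TFI

end Pool.Agent.H365.TF
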