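import Pool.Agent.H365.TF.Pair
import Pool.Agent.H365.LZ.NH
import Pool.Agent.H365.Perm

/-!
# Project TF: the assembly
-/

set_option autoImplicit false

namespace Pool.Agent.H365.TF

open Pool.Agent.N44.NS (E3 el)
open Pool.Agent.W661.RC (HasT)
open Pool.Agent.H21R2 (IsHyperlinear)
open Pool.Agent.H365.LS (S_WHI S_UNION sU sU_mul dU)
open Pool.Agent.H365.LZ (S_HT MM ofM ofM_val)

noncomputable section

/-- the pair over the matrices over the group ring of `BS(1,2)` -/
theorem exists_pair_BS2 (hBS : S_BS) (hRNG : S_RNG) (hHT : S_HT) (hWHI : S_WHI)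
    (hUNION : S_UNION) (hKM : S_KM) (hKT : S_KT) (hQG : S_QG) :
    ∃ (H : Type) (_ : Group H) (B : Type) (_ : Ring B) (i : B →+* MM ℤ H)
      (K : Subgroup (KK i ⊔ QQ (MM ℤ H) : Subgroup (Tri (Matrix (Fin 3) (Fin 3) (MM ℤ H))))),
      (∃ N : Subgroup H, VRes 5 H N) ∧ (∃ N : Subgroup H, VRes 7 H N) ∧
      HasT (KK i ⊔ QQ (MM ℤ H) : Subgroup (Tri (Matrix (Fin 3) (Fin 3) (MM ℤ H)))) ∧ HasT K ∧
      Subgroup.closure {g : (KK i ⊔ QQ (MM ℤ H) :
        Subgroup (Tri (Matrix (Fin 3) (Fin 3) (MM ℤ H)))) | ∀ k ∈ K, g⁻¹ * k * g ∈ K} = ⊤ ∧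
      ¬ K.Normal := by
  obtain ⟨H, _, a, f, haf, hgen, hnf, hore, h5, h7⟩ := hBS
  obtain ⟨B, _, i, hi, ⟨TB, hTB⟩, ⟨TA, hTA⟩, ⟨b0, hb0⟩, hnb, hx⟩ := hRNG H a f haf hgen hnf hore
  have hA : HasT (E3 (MM ℤ H)) := hHT (MonoidAlgebra ℤ H) TA hTA
  have hB : HasT (E3 (Matrix (Fin 3) (Fin 3) B)) := hHT B TB hTB
  have hfc : ofM ℤ f = ofM ℤ a * ofM ℤ f * (ofM ℤ a)⁻¹ * (ofM ℤ f)⁻¹ := by
    rw [← map_mul, ← map_inv, ← map_mul, haf, ← map_inv, ← map_mul]
    congr 1
    group
  have hmono : ∀ (w : MonoidAlgebra ℤ H) (m n : ℕ), m ≤ n →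
      (∃ b, w * MonoidAlgebra.of ℤ H f ^ m = i b) →
      ∃ b, w * MonoidAlgebra.of ℤ H f ^ n = i b := by
    rintro w m n hmn ⟨b, hb⟩
    obtain ⟨d, rfl⟩ := Nat.exists_eq_add_of_le hmn
    exact ⟨b * b0 ^ d, by rw [pow_add, ← mul_assoc, hb, map_mul, map_pow, hb0]⟩
  obtain ⟨K, h1, h2, h3, h4⟩ := exists_pair_of' (A := MM ℤ H) (B := Matrix (Fin 3) (Fin 3) B)
    (i.mapMatrix) hWHI hUNION hKM hKT hQG (ofM ℤ f) (ofM ℤ a) (ofM ℤ f) hfc
    ⟨Matrix.diagonal fun _ => b0, by
      rw [ofM_val, Matrix.scalar_apply]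
      show (Matrix.diagonal fun _ => b0).map i = _
      rw [Matrix.diagonal_map (map_zero i)]
      congr 1
      funext j
      exact hb0⟩
    (by
      intro b hb
      apply hnb (b 0 0)
      have h1 := congrFun (congrFun hb 0) 0
      rw [← map_inv, ofM_val, Matrix.scalar_apply, Matrix.diagonal_apply_eq] at h1
      exact h1)
    (by
      intro z
      have hx' : ∀ j k, ∃ n : ℕ, ∃ b, z j k * MonoidAlgebra.of ℤ H f ^ n = i b := fun j k => hx _
      choose n hn using hx'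
      set M : ℕ := ∑ j, ∑ k, n j k with hM
      have hle : ∀ j k, n j k ≤ M := by
        intro j k
        refine (Finset.single_le_sum (f := fun k => n j k) (fun _ _ => Nat.zero_le _)
          (Finset.mem_univ k)).trans ?_
        exact Finset.single_le_sum (f := fun j => ∑ k, n j k) (fun _ _ => Nat.zero_le _)
          (Finset.mem_univ j)
      have hz : ∀ j k, ∃ b, z j k * MonoidAlgebra.of ℤ H f ^ M = i b := fun j k =>
        hmono _ _ _ (hle j k) (hn j k)
      choose b hb using hz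
      refine ⟨M, Matrix.of b, ?_⟩
      rw [ofM_val, ← map_pow, Matrix.scalar_apply]
      ext j k : 2
      rw [Matrix.mul_diagonal, hb]
      rfl)
    hA hB
  exact ⟨H, inferInstance, Matrix (Fin 3) (Fin 3) B, inferInstance, i.mapMatrix, K, h5, h7, h1, h2,
    h3, h4⟩

/-- the pair, part 1 -/
theorem exists_pair_BS (hBS : S_BS) (hRNG : S_RNG) (hHT : S_HT) (hWHI : S_WHI) (hUNION : S_UNION)
    (hKM : S_KM) (hKT : S_KT) (hQG : S_QG) (hTFS : S_TFS) (hRFT : S_RFT) :
    ∃ (T : Type) (_ : Group T) (U : Subgroup T) (G : Subgroup T) (K : Subgroup G),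
      IsRF T ∧ U.Normal ∧ U.FiniteIndex ∧ (∀ u ∈ U, ∀ n : ℕ, 0 < n → u ^ n = 1 → u = 1) ∧
      HasT G ∧ HasT K ∧
      Subgroup.closure {g : G | ∀ k ∈ K, g⁻¹ * k * g ∈ K} = ⊤ ∧ ¬ K.Normal := by
  obtain ⟨H, _, B, _, i, K, h5, h7, h1, h2, h3, h4⟩ :=
    exists_pair_BS2 hBS hRNG hHT hWHI hUNION hKM hKT hQG
  obtain ⟨U, hU1, hU2, hU3⟩ := hTFS H h5 h7
  exact ⟨_, inferInstance, U, _, K, hRFT H h5, hU1, hU2, hU3, h1, h2, h3, h4⟩


/-- torsion-freeness -/
def TFree (G : Type) [Group G] : Prop := ∀ g : G, ∀ n : ℕ, 0 < n → g ^ n = 1 → g = 1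

theorem power_tf {X : Type} (x : DirectPower X (Multiplicative ℤ)) (n : ℕ) (hn : 0 < n)
    (h : x ^ n = 1) : x = 1 := by
  apply Subtype.ext
  funext y
  have h1 : (x.1 y) ^ n = 1 := congrFun (congrArg Subtype.val h) y
  have h2 : n • (x.1 y).toAdd = 0 := h1
  have h3 : (x.1 y).toAdd = 0 := by
    rcases smul_eq_zero.1 h2 with h | h
    · omega
    · exact h
  exact h3

theorem main (hBS : S_BS) (hRNG : S_RNG) (hHT : S_HT) (hWHI : S_WHI) (hUNION : S_UNION)
    (hKM : S_KM) (hKT : S_KT) (hQG : S_QG) (hTFS : S_TFS) (hRFT : S_RFT) (hFI : S_FI)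
    (hWFG : S_WFG) (hTFI : S_TFI) :
    ∃ (G : Type) (_ : Group G) (X : Type) (_ : MulAction G X), HasT G ∧ Group.FG G ∧ IsRF G ∧
      TFree G ∧ Group.FG (WreathProduct (Multiplicative ℤ) X G) ∧
      TFree (WreathProduct (Multiplicative ℤ) X G) ∧
      ¬ IsHyperlinear (WreathProduct (Multiplicative ℤ) X G) := by
  obtain ⟨T, _, U, G, K, hrf, hU1, hU2, hU3, hG, hK, hgen, hn⟩ :=
    exists_pair_BS hBS hRNG hHT hWHI hUNION hKM hKT hQG hTFS hRFT
  let L : Type := Multiplicative ℤ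
  let G0 : Subgroup G := U.subgroupOf G
  have : G0.Normal := inferInstance
  have : G0.FiniteIndex := inferInstance
  have hl : (Multiplicative.ofAdd (1 : ℤ) : Multiplicative ℤ) ≠ 1 := by decide
  have hT0 : HasT G0 := hTFI G G0 hG
  have hfgG : ∀ (Γ : Type) [Group Γ], HasT Γ → Group.FG Γ := by
    intro Γ _ h
    obtain ⟨k, γ, hγ⟩ := Pool.Agent.N303.KQ.exists_free h
    exact Group.fg_of_surjective hγ
  let W := WreathProduct L (G ⧸ K) G
  let W1 := WreathProduct L (G ⧸ K) G0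
  have hW : ¬ IsHyperlinear W := not_hyper_semidirect K hG hK hgen hn _ _ (permute_coset K hl)
  let j : W1 →* W := SemidirectProduct.map (MonoidHom.id _) G0.subtype (by
    intro g
    rfl)
  have hj : Function.Injective j := by
    intro x y h
    refine SemidirectProduct.ext ?_ ?_
    · have h1 : (j x).left = (j y).left := congrArg (fun w : W => w.left) h
      exact h1
    · have h1 : (j x).right = (j y).right := congrArg (fun w : W => w.right) h
      exact Subtype.ext h1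
  let N : Subgroup W := G0.comap SemidirectProduct.rightHom
  have : N.Normal := inferInstance
  have : N.FiniteIndex := by
    refine ⟨?_⟩
    rw [Subgroup.index_comap_of_surjective _ SemidirectProduct.rightHom_surjective]
    exact Subgroup.FiniteIndex.index_ne_zero
  have hjN : ∀ x, j x ∈ N := fun x => x.right.2
  let j' : W1 →* N := j.codRestrict N hjN
  have hj'i : Function.Injective j' := fun x y h => hj (congrArg Subtype.val h)
  have hj's : Function.Surjective j' := by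
    rintro ⟨w, hw⟩
    exact ⟨⟨w.left, ⟨w.right, hw⟩⟩, rfl⟩
  let e : W1 ≃* N := MulEquiv.ofBijective j' ⟨hj'i, hj's⟩
  refine ⟨G0, inferInstance, G ⧸ K, inferInstance, hT0, hfgG _ hT0, ?_, ?_, ?_, ?_, ?_⟩
  · -- residual finiteness
    intro g hg
    obtain ⟨M, h1, h2, h3⟩ := hrf ((g : G) : T) (fun h => hg (Subtype.ext (Subtype.ext h)))
    have := h1
    have := h2
    exact ⟨(M.subgroupOf G).subgroupOf G0, inferInstance, inferInstance, h3⟩
  · intro g n hn h
    have h1 : ((g : G) : T) ^ n = 1 := congrArg (fun x : G0 => ((x : G) : T)) h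
    exact Subtype.ext (Subtype.ext (hU3 _ g.2 n hn h1))
  · -- finite generation
    have h1 : Group.FG W := hWFG G L K (hfgG G hG) inferInstance
    have h2 : Group.FG N := inferInstance
    exact Group.fg_of_surjective (f := e.symm.toMonoidHom) e.symm.surjective
  · intro w n hn h
    have h1 : w.right = 1 := by
      have h2 : w.right ^ n = 1 := by
        have := congrArg (SemidirectProduct.rightHom : W1 →* G0) h
        rwa [map_pow, map_one] at this
      have h3 : ((w.right : G) : T) ^ n = 1 := congrArg (fun x : G0 => ((x : G) : T)) h2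
      exact Subtype.ext (Subtype.ext (hU3 _ w.right.2 n hn h3))
    have h2 : w = SemidirectProduct.inl w.left := by
      refine SemidirectProduct.ext rfl ?_
      rw [h1]
      rfl
    rw [h2, ← map_pow, ← map_one (SemidirectProduct.inl : _ →* W1)] at h
    have h3 := SemidirectProduct.inl_injective h
    rw [h2, power_tf _ n hn h3, map_one]
  · intro hh
    exact hW (hFI W N (hyperlinear_inj e.symm.toMonoidHom e.symm.injective hh))

end

end Pool.Agent.H365.TF
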