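import Pool.Agent.H365.TF.Stm

/-!
# Project TF, part 2: a torsion-free group with property (T) which is not hyperlinear

Statements of the lemmas, with complete paper proofs.

Idea. Part 1 gives a Kazhdan group `G` and `W = ℤ^(X) ⋊ G` which is not hyperlinear. The group `E_9(ℤ[W])` has
property (T) and is not hyperlinear; it contains `G` (scalar matrices, as `G` is perfect) and the matrix
`diag (l, l⁻¹, 1)` of blocks, `l` an element of the lamp group. It is virtually torsion-free: an element of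
finite order of `GL_9(ℤ[W])` with trivial image in `GL_9(ℤ[G])` is trivial (idempotents in the powers of the
augmentation ideal of `ℤ^(X)`), and `GL_9(ℤ[G])` is virtually torsion-free, as `G` is virtually residually a
finite `ℓ`-group for `ℓ = 5, 7`.
-/

set_option autoImplicit false

namespace Pool.Agent.H365.TF

open Pool.Agent.N44.NS (E3 el)
open Pool.Agent.W661.RC (HasT)
open Pool.Agent.H21R2 (IsHyperlinear)
open Pool.Agent.H365 (WreathProduct DirectPower)

noncomputable section

/-- matrices of size nine -/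
abbrev M9 (R : Type) [Ring R] : Type := Matrix (Fin 3) (Fin 3) (Matrix (Fin 3) (Fin 3) R)

/-- **LG.** (uses `S_COP`; adapt the proof of `t_NT1` in Pool/Agent/H806/TF/NT1.lean, whose auxiliary lemmas `NT1.ac`,
`NT1.lm`, `NT1.mem_of_ker` can be cited; the proof of `t_NT1` only uses the image `A` of `g` over
`(ZMod ℓ)[H/M]`.) Congruence quotients are `ℓ`-groups. Proof. Let `S₁ = M_ι((ZMod ℓ^j)[H/M])`, a finite
ring (let `j ≥ 1`; for `j = 0` everything is trivial). The image of `g` in `S₁` is a unit, of order `ℓ^m r`, `r` prime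
to `ℓ`. Let `h = g^(ℓ^m)`; its image `h₁` in `S₁` has `h₁^r = 1`, and `h` is trivial modulo `(ℓ, N)`. By the argument
of NT1 (coprime action, COP) the image of `h` in `M_ι((ZMod ℓ)[H/M])` is `1`. So `h₁ = 1 + ℓ y` with `y ∈ S₁` (the
kernel of `(ZMod ℓ^j)[H/M] → (ZMod ℓ)[H/M]` is generated by `ℓ`), hence `h₁^(ℓ^i) ∈ 1 + ℓ^(i+1) S₁` by induction
(binomial theorem, `ℓ` divides the binomial coefficients; all elements commute) and `h₁^(ℓ^j) = 1`. As also
`h₁^r = 1`, `h₁ = 1`. -/
def S_LG : Prop := ∀ (ℓ : ℕ) [Fact ℓ.Prime] (H : Type) [Group H] (N M : Subgroup H) [N.Normal]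
  [M.Normal] [M.FiniteIndex], M ≤ N → (∃ k : ℕ, M.relIndex N = ℓ ^ k) →
  ∀ (j : ℕ) (ι : Type) [Fintype ι] [DecidableEq ι] (g : (Matrix ι ι (MonoidAlgebra ℤ H))ˣ),
    (g : Matrix ι ι (MonoidAlgebra ℤ H)).map (red ℓ N) = 1 →
    ∃ m : ℕ, ((g ^ (ℓ ^ m) : (Matrix ι ι (MonoidAlgebra ℤ H))ˣ) :
      Matrix ι ι (MonoidAlgebra ℤ H)).map (red (ℓ ^ j) M) = 1

/-- **VG.** (uses `S_LG`; compare the files of `S_TFS`, `S_RFT`: Pool/Agent/H236/TF/TFS.lean, H974/TF/RFT.lean.) The
triangular group over `ℤ[H]` is virtually residually a finite `ℓ`-group, if `H` is. Proof. Let `VRes ℓ H N`. For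
`q > 0` and a normal subgroup `M` of finite index let `C(q, M)` be the kernel of the homomorphism from
`Tri (M9 ℤ[H])` to the finite group `Tri (M9 ((ZMod q)[H/M]))` given by `red q M`. `N' = C(ℓ, N)`. Given a
finite set `S` with `1 ∉ S`: for `s ∈ S` one of the entries of `s.g - 1`, `s.x`, `s.h - 1` is an element
`x_s ≠ 0` of `ℤ[H]`. Choose `j ≥ 1` such that `ℓ^j` does not divide some coefficient of `x_s`, for all `s ∈ S`, and
`M ≤ N` from `VRes` which does not contain `h⁻¹ h'` for `h ≠ h'` in the support of some `x_s`. Then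
`red (ℓ^j) M x_s ≠ 0`, so `s ∉ M' = C(ℓ^j, M)`. `M' ≤ N'` as `red ℓ N` factors through `red (ℓ^j) M`. For
`u ∈ N'` there is by LG an `m` such that the diagonal blocks of `u^(ℓ^m)` are trivial modulo `(ℓ^j, M)` (take
the larger of the two `m`); so `u^(ℓ^m)` is modulo `(ℓ^j, M)` of the form `(1 x; 0 1)` and its power `ℓ^j` is
trivial. So the elements of the finite group `N'/M'` have `ℓ`-power order, and its order `M'.relIndex N'` is a
power of `ℓ` (`IsPGroup.iff_card`). -/
def S_VG : Prop := ∀ (ℓ : ℕ) [Fact ℓ.Prime] (H : Type) [Group H], (∃ N : Subgroup H, VRes ℓ H N) →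
  ∃ N : Subgroup (Tri (M9 (MonoidAlgebra ℤ H))), VRes ℓ (Tri (M9 (MonoidAlgebra ℤ H))) N

/-- **VSUB.** Subgroups. Proof: for a finite set `S ⊆ G` take `M ≤ N` for its image in `T` and use `M.subgroupOf G`. The
group `(N ∩ G)/(M ∩ G)` embeds in `N/M`, so its order divides `ℓ^k` and is a power of `ℓ`
(`Nat.dvd_prime_pow`). -/
def S_VSUB : Prop := ∀ (ℓ : ℕ) [Fact ℓ.Prime] (T : Type) [Group T] (N G : Subgroup T), VRes ℓ T N →
  VRes ℓ G (N.subgroupOf G)

/-- the augmentation ideal -/
def aug (k L : Type) [CommRing k] [CommGroup L] : Ideal (MonoidAlgebra k L) :=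
  Ideal.span (Set.range fun l : L => MonoidAlgebra.single l 1 - 1)

/-- **OM1.** Powers of the augmentation ideal. Proof. Let `y ≠ 0` and choose `φ : L → Q` injective on the support of
`y`, `Q` a finite commutative `ℓ`-group. The image of `y` in `(ZMod ℓ)[Q]` is not zero, and it lies in all powers of
the augmentation ideal `aug (ZMod ℓ) Q` (the image of `aug (ZMod ℓ) L` is contained in it). But this ideal is
nilpotent: it is generated by the finitely many nilpotent elements `single q 1 - 1`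
(`(single q 1 - 1)^(ℓ^n) = single (q^(ℓ^n)) 1 - 1 = 0`, characteristic `ℓ`, `sub_pow_char_pow`), see
`Ideal.FG.isNilpotent_iff_le_nilradical`. -/
def S_OM1 : Prop := ∀ (ℓ : ℕ) [Fact ℓ.Prime] (L : Type) [CommGroup L],
  (∀ S : Finset L, ∃ (Q : Type) (_ : CommGroup Q) (_ : Finite Q) (φ : L →* Q), IsPGroup ℓ Q ∧
    Set.InjOn φ (S : Set L)) →
  ∀ y : MonoidAlgebra (ZMod ℓ) L, (∀ m : ℕ, y ∈ aug (ZMod ℓ) L ^ m) → y = 0

/-- **OM2.** (uses `S_OM1`) Idempotents. Proof. Let `k = ZMod ℓ`, `L = DirectPower X (Multiplicative ℤ)`, a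
commutative group which satisfies the hypothesis of OM1 (a finite set of functions is determined by its
values on a finite subset `F` of `X`, modulo `ℓ^j` for large `j`: `Q = F → Multiplicative (ZMod (ℓ^j))`), and
`W = L ⋊ G`. Every `y ∈ k[W]` is uniquely `∑ γ ∈ G, y_γ γ` with `y_γ ∈ k[L]` (`y_γ l = y (l γ)`,
`l γ = ⟨l, γ⟩`). Let `I_m = {y | ∀ γ, y_γ ∈ (aug k L)^m}`; then `I_m I_n ⊆ I_{m+n}`, since
`(y γ)(z δ) = y (γ z γ⁻¹) γ δ` and the automorphism of `k[L]` given by `γ` preserves `aug k L` and its powers. If `y`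
has image `0` in `k[G]`, then for every `γ` the sum of the coefficients of `y_γ` is `0`, so `y ∈ I_1`. So all entries
of the matrix `p = p^m` are in `I_m` for all `m ≥ 1`, and they are `0` by OM1. -/
def S_OM2 : Prop := ∀ (ℓ : ℕ) [Fact ℓ.Prime] (G X : Type) [Group G] [MulAction G X]
  (ι : Type) [Fintype ι] [DecidableEq ι]
  (p : Matrix ι ι (MonoidAlgebra (ZMod ℓ) (WreathProduct (Multiplicative ℤ) X G))),
  p * p = p → p.map (MonoidAlgebra.mapDomainRingHom (ZMod ℓ)
    (SemidirectProduct.rightHom : WreathProduct (Multiplicative ℤ) X G →* G)) = 0 → p = 0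

/-- **OMG.** (uses `S_OM2`) Proof. Let `ℓ` be a prime which does not divide `r`, `g₁` the image of `g` over
`(ZMod ℓ)[W]`, `e = (1/r) ∑_{i < r} g₁^i`, `p = 1 - e`. Then `g₁ e = e`, `e² = e`, `p² = p`, and `e` has image `1`
and `p` has image `0` over `(ZMod ℓ)[G]`. By OM2 `p = 0`, so `e = 1` and `g₁ = g₁ e = e = 1`. So all coefficients of the
entries of `g - 1` are divisible by all primes `ℓ` not dividing `r`, hence they are `0`. -/
def S_OMG : Prop := ∀ (G X : Type) [Group G] [MulAction G X] (ι : Type) [Fintype ι] [DecidableEq ι]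
  (g : Matrix ι ι (MonoidAlgebra ℤ (WreathProduct (Multiplicative ℤ) X G))) (r : ℕ), 0 < r →
  g ^ r = 1 → g.map (MonoidAlgebra.mapDomainRingHom ℤ
    (SemidirectProduct.rightHom : WreathProduct (Multiplicative ℤ) X G →* G)) = 1 → g = 1

/-- **PG.** (uses `S_KM` and `Pool.Agent.H365.LS.S_PERF`) The group `KK i ⊔ QQ A` is perfect. Proof. `QQ A` and the
image of `EB i` under `lHom` are images of `E3 A`, `E3 B`, which are generated by commutators of their
elements by PERF. By KM an element of `KK i` is a product of `(1 x; 0 1)`, `x` with entries in `i(B)`, and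
`(g 0; 0 1)`, `g ∈ EB i`; and `(1 x; 0 1)` is a product of the nine commutators
`(1 i(b) ε_pk; 0 1) = [(e_pj(i b) 0; 0 1), (1 ε_jk; 0 1)]`, see the proof of `t_KT` in Pool/Agent/H747/TF/KT.lean. -/
def S_PG : Prop := ∀ (A B : Type) [Ring A] [Ring B] (i : B →+* A),
  KK i ⊔ QQ A ≤ Subgroup.closure {g | ∃ x ∈ KK i ⊔ QQ A, ∃ y ∈ KK i ⊔ QQ A,
    g = x * y * x⁻¹ * y⁻¹}

/-- **RFG.** The group ring of a finitely generated group is a finitely generated ring. Proof: generated by the
group elements `s`, `s⁻¹`, `s` in a finite generating set. -/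
def S_RFG : Prop := ∀ (W : Type) [Group W], Group.FG W →
  ∃ T : Finset (MonoidAlgebra ℤ W), Subring.closure (T : Set (MonoidAlgebra ℤ W)) = ⊤

end

end Pool.Agent.H365.TF
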