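import Pool.Agent.H365.TF.All
import Pool.Agent.H365.TF.Stm2
import Pool.Agent.H349.LS.WHI
import Pool.Agent.H52.LS.PERF
import Pool.Agent.H594.TF.LG
import Pool.Agent.H385.TF.VG
import Pool.Agent.H264.TF.OM2
import Pool.Agent.H658.TF.VSUB
import Pool.Agent.H585.TF.OM1
import Pool.Agent.H227.TF.OMG
import Pool.Agent.H261.TF.PG
import Pool.Agent.H263.TF.RFG

/-!
# Project TF, part 2: the assembly
-/

set_option autoImplicit false

namespace Pool.Agent.H365.TF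

open Pool.Agent.N44.NS (E3 el)
open Pool.Agent.W661.RC (HasT)
open Pool.Agent.H21R2 (IsHyperlinear)
open Pool.Agent.H365.LS (S_WHI S_UNION sU sU_mul dU)
open Pool.Agent.H365.LZ (S_HT MM ofM ofM_val sc sc_comm_mem)

noncomputable section

theorem fg_of_T {Γ : Type} [Group Γ] (h : HasT Γ) : Group.FG Γ := by
  obtain ⟨k, γ, hγ⟩ := Pool.Agent.N303.KQ.exists_free h
  exact Group.fg_of_surjective hγ

section

variable {A : Type} [Ring A]

theorem dg_comm (d e : Fin 3 → Aˣ) :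
    LS.WHI.dg d * LS.WHI.dg e = LS.WHI.dg e * LS.WHI.dg d ↔ ∀ i, d i * e i = e i * d i := by
  constructor
  · intro h i
    have h1 := congrFun (congrFun (congrArg (fun t : (Matrix (Fin 3) (Fin 3) A)ˣ =>
      (t : Matrix (Fin 3) (Fin 3) A)) h) i) i
    rw [Units.val_mul, Units.val_mul, LS.WHI.dg_val, LS.WHI.dg_val, Matrix.diagonal_mul_diagonal,
      Matrix.diagonal_mul_diagonal, Matrix.diagonal_apply_eq, Matrix.diagonal_apply_eq] at h1
    exact Units.ext h1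
  · intro h
    rw [← map_mul, ← map_mul]
    congr 1
    funext i
    exact h i

theorem sU_dg (v : Aˣ) : sU v = LS.WHI.dg fun _ => v := Units.ext rfl

/-- the matrix `diag (u, u⁻¹, 1)` -/
def hU (u : Aˣ) : (Matrix (Fin 3) (Fin 3) A)ˣ :=
  LS.WHI.dg (Function.update (Function.update 1 0 u) 1 u⁻¹)

theorem hU_mem (u : Aˣ) : hU u ∈ E3 A := LS.WHI.dg_pair_mem (by decide) u

theorem hU_comm (u v : Aˣ) : hU u * sU v = sU v * hU u ↔ u * v = v * u := by
  rw [hU, sU_dg, dg_comm]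
  constructor
  · intro h
    exact h 0
  · intro h i
    fin_cases i
    · exact h
    · show u⁻¹ * v = v * u⁻¹
      rw [inv_mul_eq_iff_eq_mul, ← mul_assoc, h, mul_inv_cancel_right]
    · show 1 * v = v * 1
      rw [one_mul, mul_one]

end

theorem ofM_inj {W : Type} [Group W] : Function.Injective (ofM ℤ : W →* (MM ℤ W)ˣ) := by
  intro x y h
  have h1 := congrFun (congrFun (congrArg (fun t : (MM ℤ W)ˣ => (t : MM ℤ W)) h) 0) 0
  rw [ofM_val, ofM_val, Matrix.scalar_apply, Matrix.scalar_apply, Matrix.diagonal_apply_eq,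
    Matrix.diagonal_apply_eq] at h1
  exact MonoidAlgebra.of_injective (R := ℤ) h1

/-- the group `E_9(ℤ[W])` is not hyperlinear -/
theorem not_hyper_E9 (hWHI : S_WHI) {G : Type} [Group G] (K : Subgroup G) (hG : HasT G)
    (hK : HasT K) (hgen : Subgroup.closure {g : G | ∀ k ∈ K, g⁻¹ * k * g ∈ K} = ⊤)
    (hn : ¬ K.Normal) (hperf : Subgroup.closure {g : G | ∃ x y : G, g = x * y * x⁻¹ * y⁻¹} = ⊤) :
    ¬ IsHyperlinear (E3 (MM ℤ (WreathProduct (Multiplicative ℤ) (G ⧸ K) G))) := by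
  let W := WreathProduct (Multiplicative ℤ) (G ⧸ K) G
  have hl : (Multiplicative.ofAdd (1 : ℤ) : Multiplicative ℤ) ≠ 1 := by decide
  let δ : DirectPower (G ⧸ K) (Multiplicative ℤ) :=
    delta ((1 : G) : G ⧸ K) (Multiplicative.ofAdd (1 : ℤ))
  let j0 : G →* (Matrix (Fin 3) (Fin 3) (MM ℤ W))ˣ :=
    (sc ℤ (Δ := W)).comp (SemidirectProduct.inr : G →* W)
  have hj0 : ∀ g, j0 g ∈ E3 (MM ℤ W) := by
    intro g
    have h1 : Subgroup.closure {g : G | ∃ x y : G, g = x * y * x⁻¹ * y⁻¹} ≤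
        (E3 (MM ℤ W)).comap j0 := by
      rw [Subgroup.closure_le]
      rintro _ ⟨x, y, rfl⟩
      have h2 := sc_comm_mem (Λ := ℤ) hWHI (SemidirectProduct.inr x : W)
        (SemidirectProduct.inr y : W)
      rw [← map_inv, ← map_inv, ← map_mul, ← map_mul, ← map_mul] at h2
      exact h2
    exact h1 (by rw [hperf]; trivial)
  let j : G →* E3 (MM ℤ W) := j0.codRestrict _ hj0
  let u : (MM ℤ W)ˣ := ofM ℤ (SemidirectProduct.inl δ : W)
  refine not_hyper_of_elt K hG hK hgen hn j ⟨hU u, hU_mem u⟩ fun g => ?_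
  rw [← permute_coset K hl g]
  have h1 : (⟨hU u, hU_mem u⟩ : E3 (MM ℤ W)) * j g = j g * ⟨hU u, hU_mem u⟩ ↔
      hU u * sU (ofM ℤ (SemidirectProduct.inr g : W)) =
        sU (ofM ℤ (SemidirectProduct.inr g : W)) * hU u :=
    ⟨fun h => congrArg Subtype.val h, fun h => Subtype.ext h⟩
  rw [h1, hU_comm]
  have h2 : u * ofM ℤ (SemidirectProduct.inr g : W) = ofM ℤ (SemidirectProduct.inr g : W) * u ↔
      (SemidirectProduct.inl δ : W) * SemidirectProduct.inr g =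
        SemidirectProduct.inr g * SemidirectProduct.inl δ := by
    rw [← map_mul, ← map_mul]
    exact ofM_inj.eq_iff
  rw [h2, inr_inl]
  constructor
  · intro h
    exact (SemidirectProduct.inl_injective (mul_right_cancel h)).symm
  · intro h
    have h3 : permute G (G ⧸ K) (Multiplicative ℤ) g δ = δ := h
    rw [h3]

/-- the ring homomorphism -/
def piW (G X : Type) [Group G] [MulAction G X] :
    M9 (MonoidAlgebra ℤ (WreathProduct (Multiplicative ℤ) X G)) →+* M9 (MonoidAlgebra ℤ G) :=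
  (MonoidAlgebra.mapDomainRingHom ℤ
    (SemidirectProduct.rightHom : WreathProduct (Multiplicative ℤ) X G →* G)).mapMatrix.mapMatrix

theorem piW_tf (hOMG : S_OMG) {G X : Type} [Group G] [MulAction G X]
    (g : M9 (MonoidAlgebra ℤ (WreathProduct (Multiplicative ℤ) X G))) (r : ℕ) (hr : 0 < r)
    (hg : g ^ r = 1) (hp : piW G X g = 1) : g = 1 := by
  let c := Matrix.compRingEquiv (Fin 3) (Fin 3)
    (MonoidAlgebra ℤ (WreathProduct (Multiplicative ℤ) X G))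
  have h1 := hOMG G X (Fin 3 × Fin 3) (c g) r hr (by rw [← map_pow, hg, map_one]) (by
    ext1 ⟨a, b⟩ ⟨a', b'⟩
    have h2 := congrFun (congrFun (congrFun (congrFun hp a) a') b) b'
    have h3 : ((c g).map (MonoidAlgebra.mapDomainRingHom ℤ
        (SemidirectProduct.rightHom : WreathProduct (Multiplicative ℤ) X G →* G))) (a, b) (a', b') =
        piW G X g a a' b b' := rfl
    rw [h3, h2]
    by_cases h4 : a = a'
    · subst h4
      rw [Matrix.one_apply_eq]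
      by_cases h5 : b = b'
      · subst h5
        rw [Matrix.one_apply_eq, Matrix.one_apply_eq]
      · rw [Matrix.one_apply_ne h5, Matrix.one_apply_ne]
        exact fun h => h5 (congrArg Prod.snd h)
    · rw [Matrix.one_apply_ne h4, Matrix.one_apply_ne]
      · rfl
      · exact fun h => h4 (congrArg Prod.fst h))
  exact c.injective (by rw [h1, map_one])

/-- the theorem of part 2, for a given pair -/
theorem goal2_of {T : Type} [Group T] (G : Subgroup T) (K : Subgroup G) (hG : HasT G) (hK : HasT K)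
    (hgen : Subgroup.closure {g : G | ∀ k ∈ K, g⁻¹ * k * g ∈ K} = ⊤) (hn : ¬ K.Normal)
    (hp : G ≤ Subgroup.closure {g | ∃ x ∈ G, ∃ y ∈ G, g = x * y * x⁻¹ * y⁻¹})
    (hG5 : ∃ N : Subgroup G, VRes 5 G N) (hG7 : ∃ N : Subgroup G, VRes 7 G N) :
    ∃ (P : Type) (_ : Group P), HasT P ∧ Group.FG P ∧ TFree P ∧ ¬ IsHyperlinear P := by
  have hperf : Subgroup.closure {g : G | ∃ x y : G, g = x * y * x⁻¹ * y⁻¹} = ⊤ := by
    set M : Subgroup G := Subgroup.closure {g : G | ∃ x y : G, g = x * y * x⁻¹ * y⁻¹} with hM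
    have h1 : G ≤ M.map G.subtype := by
      refine hp.trans ?_
      rw [Subgroup.closure_le]
      rintro _ ⟨x, hx, y, hy, rfl⟩
      exact ⟨⟨x, hx⟩ * ⟨y, hy⟩ * ⟨x, hx⟩⁻¹ * ⟨y, hy⟩⁻¹, Subgroup.subset_closure ⟨_, _, rfl⟩, rfl⟩
    rw [eq_top_iff]
    rintro ⟨x, hx⟩ -
    obtain ⟨y, hy, hyx⟩ := h1 hx
    have : y = ⟨x, hx⟩ := Subtype.ext hyx
    rwa [← this]
  obtain ⟨U, hU1, hU2, hU3⟩ := t_TFS' G hG5 hG7
  let W := WreathProduct (Multiplicative ℤ) (G ⧸ K) G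
  have hWfg : Group.FG W := t_WFG G (Multiplicative ℤ) K (fg_of_T hG) inferInstance
  obtain ⟨S, hS⟩ := t_RFG W hWfg
  have hP : HasT (E3 (MM ℤ W)) := Pool.Agent.H365.LZ.t_HT (MonoidAlgebra ℤ W) S hS
  have hPn : ¬ IsHyperlinear (E3 (MM ℤ W)) :=
    not_hyper_E9 Pool.Agent.H365.LS.t_WHI K hG hK hgen hn hperf
  let Φ : E3 (MM ℤ W) →* Tri (M9 (MonoidAlgebra ℤ G)) :=
    ((lHom (M9 (MonoidAlgebra ℤ G))).comp
      (Units.map (piW G (G ⧸ K)).toMonoidHom)).comp (E3 (MM ℤ W)).subtype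
  let P0 : Subgroup (E3 (MM ℤ W)) := U.comap Φ
  have : P0.FiniteIndex := by
    refine ⟨?_⟩
    rw [Subgroup.index_comap]
    exact fun h => hU2.index_ne_zero (Nat.eq_zero_of_zero_dvd (h ▸ Subgroup.relIndex_dvd_index_of_normal U Φ.range))
  have hT0 : HasT P0 := t_TFI _ P0 hP
  refine ⟨P0, inferInstance, hT0, fg_of_T hT0, ?_, fun h => hPn (t_FI _ P0 h)⟩
  intro x n hn0 hx
  have h1 : Φ (x : E3 (MM ℤ W)) = 1 := by
    refine hU3 _ x.2 n hn0 ?_
    rw [← map_pow]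
    have h2 : (x : E3 (MM ℤ W)) ^ n = 1 := congrArg Subtype.val hx
    rw [h2, map_one]
  have h2 : piW G (G ⧸ K) (((x : E3 (MM ℤ W)) : (Matrix (Fin 3) (Fin 3) (MM ℤ W))ˣ) :
      M9 (MonoidAlgebra ℤ W)) = 1 := congrArg (fun t => (t.g : M9 (MonoidAlgebra ℤ G))) h1
  have h3 : (((x : E3 (MM ℤ W)) : (Matrix (Fin 3) (Fin 3) (MM ℤ W))ˣ) :
      M9 (MonoidAlgebra ℤ W)) ^ n = 1 := by
    have h4 : (x : E3 (MM ℤ W)) ^ n = 1 := congrArg Subtype.val hx
    have h5 := congrArg (fun t : E3 (MM ℤ W) => ((t : (Matrix (Fin 3) (Fin 3) (MM ℤ W))ˣ) :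
      M9 (MonoidAlgebra ℤ W))) h4
    simpa using h5
  have h4 := piW_tf (t_OMG (t_OM2 t_OM1)) _ n hn0 h3 h2
  exact Subtype.ext (Subtype.ext (Units.ext h4))

/-- **The theorem of part 2.** -/
theorem goal2 : ∃ (P : Type) (_ : Group P), HasT P ∧ Group.FG P ∧ TFree P ∧ ¬ IsHyperlinear P := by
  obtain ⟨H, _, B, _, i, K, h5, h7, hG, hK, hgen, hn⟩ :=
    exists_pair_BS2 t_BS t_RNG Pool.Agent.H365.LZ.t_HT Pool.Agent.H365.LS.t_WHI
      Pool.Agent.H365.LS.t_UNION t_KM t_KT' (t_QG Pool.Agent.H365.LS.t_WHI)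
  have : Fact (Nat.Prime 5) := ⟨by norm_num⟩
  have : Fact (Nat.Prime 7) := ⟨by norm_num⟩
  refine goal2_of _ K hG hK hgen hn (t_PG t_KM Pool.Agent.H365.LS.t_PERF (MM ℤ H) B i) ?_ ?_
  · obtain ⟨N, hN⟩ := t_VG (t_LG t_COP) 5 H h5
    exact ⟨_, t_VSUB 5 _ N _ hN⟩
  · obtain ⟨N, hN⟩ := t_VG (t_LG t_COP) 7 H h7
    exact ⟨_, t_VSUB 7 _ N _ hN⟩

end

end Pool.Agent.H365.TF
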