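import Pool.Agent.H365.TF.Stm
import Pool.Agent.H365.LS.NH

/-!
# Project TF: the pair
-/

set_option autoImplicit false

namespace Pool.Agent.H365.TF

open Pool.Agent.N44.NS (E3 el)
open Pool.Agent.W661.RC (HasT)
open Pool.Agent.H21R2 (IsHyperlinear)
open Pool.Agent.H365.LS (S_WHI S_UNION sU sU_mul dU)

noncomputable section

theorem rconj {S : Type} [Ring S] (u : Tri S) (hu : u.h = 1) (q : Sˣ) :
    (rHom S q)⁻¹ * u * rHom S q = ⟨u.g, u.x * (q : S), 1⟩ := by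
  refine Tri.ext ?_ ?_ ?_
  · simp [Tri.mul_g, Tri.inv_g, rHom]
  · simp [Tri.mul_x, Tri.mul_g, Tri.inv_g, Tri.inv_x, rHom]
  · simp [Tri.mul_h, Tri.inv_h, rHom, hu]

section

variable {A B : Type} [Ring A] [Ring B] (i : B →+* A)

/-- entries in the range -/
theorem mul_entries {x y : Matrix (Fin 3) (Fin 3) A} (hx : ∀ j k, ∃ b, x j k = i b)
    (hy : ∀ j k, ∃ b, y j k = i b) : ∀ j k, ∃ b, (x * y) j k = i b := by
  intro j k
  choose f hf using hx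
  choose g hg using hy
  refine ⟨∑ l, f j l * g l k, ?_⟩
  rw [Matrix.mul_apply, map_sum]
  refine Finset.sum_congr rfl fun l _ => ?_
  rw [map_mul, hf, hg]

theorem kk_comp (hKM : S_KM) (q : (Matrix (Fin 3) (Fin 3) A)ˣ)
    (hq : ∀ j k, ∃ b, (q : Matrix (Fin 3) (Fin 3) A) j k = i b) :
    ∀ k ∈ KK i, (rHom _ q)⁻¹ * k * rHom _ q ∈ KK i := by
  intro k hk
  obtain ⟨h1, h2, h3⟩ := (hKM A B i k).1 hk
  rw [rconj k h1, hKM]
  exact ⟨rfl, h2, mul_entries i h3 hq⟩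

theorem sU_pow' (f : Aˣ) (k : ℕ) : (sU f) ^ k = sU (f ^ k) := by
  apply Units.ext
  rw [Units.val_pow_eq_pow_val]
  show (Matrix.diagonal fun _ => (f : A)) ^ k = Matrix.diagonal fun _ => ((f ^ k : Aˣ) : A)
  rw [Matrix.diagonal_pow]
  rfl

/-- the pair -/
theorem exists_pair_of' (hWHI : S_WHI) (hUNION : S_UNION) (hKM : S_KM) (hKT : S_KT) (hQG : S_QG)
    (f x y : Aˣ) (hf : f = x * y * x⁻¹ * y⁻¹) (hfB : ∃ b, i b = f)
    (hnf : ∀ b, i b ≠ ((f⁻¹ : Aˣ) : A))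
    (hore : ∀ z : A, ∃ (k : ℕ) (b : B), z * (f : A) ^ k = i b)
    (hTA : HasT (E3 A)) (hTB : HasT (E3 B)) :
    ∃ K : Subgroup (KK i ⊔ QQ A : Subgroup (Tri (Matrix (Fin 3) (Fin 3) A))),
      HasT (KK i ⊔ QQ A : Subgroup (Tri (Matrix (Fin 3) (Fin 3) A))) ∧ HasT K ∧
      Subgroup.closure {g : (KK i ⊔ QQ A : Subgroup (Tri (Matrix (Fin 3) (Fin 3) A))) |
        ∀ k ∈ K, g⁻¹ * k * g ∈ K} = ⊤ ∧ ¬ K.Normal := by
  set z : Tri (Matrix (Fin 3) (Fin 3) A) := rHom _ (sU f) with hz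
  have hzE : sU f ∈ E3 A := by
    rw [hf]
    exact (hWHI A x y).2
  have hzQ : z ∈ QQ A := ⟨_, hzE, rfl⟩
  have hfe : ∀ j k, ∃ b, ((sU f : (Matrix (Fin 3) (Fin 3) A)ˣ) : Matrix (Fin 3) (Fin 3) A) j k =
      i b := by
    intro j k
    show ∃ b, (Matrix.diagonal fun _ => (f : A)) j k = i b
    rw [Matrix.diagonal_apply]
    split_ifs
    · obtain ⟨b, hb⟩ := hfB
      exact ⟨b, hb.symm⟩
    · exact ⟨0, (map_zero i).symm⟩
  have hzK : ∀ k ∈ KK i, z⁻¹ * k * z ∈ KK i := kk_comp i hKM _ hfe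
  have hmono : ∀ (w : A) (m n : ℕ), m ≤ n → (∃ b, w * (f : A) ^ m = i b) →
      ∃ b, w * (f : A) ^ n = i b := by
    rintro w m n hmn ⟨b, hb⟩
    obtain ⟨d, rfl⟩ := Nat.exists_eq_add_of_le hmn
    obtain ⟨c, hc⟩ := hfB
    exact ⟨b * c ^ d, by rw [pow_add, ← mul_assoc, hb, map_mul, map_pow, hc]⟩
  have hTQ : HasT (QQ A) := hasT_map _ _ hTA
  have hTK0 : HasT (KK i) := hKT A B i hTB
  set G : Subgroup (Tri (Matrix (Fin 3) (Fin 3) A)) := KK i ⊔ QQ A with hG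
  have hTG : HasT G := by
    refine hUNION _ (KK i) (QQ A) z hTK0 hTQ hzQ hzK ?_
    rintro _ ⟨q, hq, rfl⟩
    have hx : ∀ j k, ∃ n : ℕ, ∃ b, ((q⁻¹ : (Matrix (Fin 3) (Fin 3) A)ˣ) :
        Matrix (Fin 3) (Fin 3) A) j k * (f : A) ^ n = i b := fun j k => hore _
    choose n hn using hx
    set M : ℕ := ∑ j, ∑ k, n j k with hM
    have hle : ∀ j k, n j k ≤ M := by
      intro j k
      refine (Finset.single_le_sum (f := fun k => n j k) (fun _ _ => Nat.zero_le _)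
        (Finset.mem_univ k)).trans ?_
      exact Finset.single_le_sum (f := fun j => ∑ k, n j k) (fun _ _ => Nat.zero_le _)
        (Finset.mem_univ j)
    refine ⟨M, fun k hk => ?_⟩
    have h1 := kk_comp i hKM (q⁻¹ * sU f ^ M) (fun j k => by
      rw [sU_pow', Units.val_mul]
      show ∃ b, ((((q⁻¹ : (Matrix (Fin 3) (Fin 3) A)ˣ) : Matrix (Fin 3) (Fin 3) A) *
        Matrix.diagonal (fun _ => ((f ^ M : Aˣ) : A)) : Matrix (Fin 3) (Fin 3) A)) j k = i b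
      rw [Matrix.mul_diagonal, Units.val_pow_eq_pow_val]
      exact hmono _ _ _ (hle j k) (hn j k)) k hk
    have h2 : (rHom _ (q⁻¹ * sU f ^ M))⁻¹ * k * rHom _ (q⁻¹ * sU f ^ M) =
        (z ^ M)⁻¹ * (rHom _ q * k * (rHom _ q)⁻¹) * z ^ M := by
      rw [map_mul, map_inv, map_pow, ← hz]
      group
    rwa [h2] at h1
  set K : Subgroup G := (KK i).subgroupOf G with hK
  have hTK : HasT K := hasT_quot
    (Subgroup.subgroupOfEquivOfLe (le_sup_left : KK i ≤ G)).symm.toMonoidHom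
    (Subgroup.subgroupOfEquivOfLe _).symm.surjective hTK0
  refine ⟨K, hTG, hTK, ?_, ?_⟩
  · set M : Subgroup G := Subgroup.closure {g : G | ∀ k ∈ K, g⁻¹ * k * g ∈ K} with hM
    have h1 : G ≤ M.map G.subtype := by
      refine sup_le ?_ ?_
      · intro k hk
        have hkG : k ∈ G := (le_sup_left : KK i ≤ G) hk
        refine ⟨⟨k, hkG⟩, Subgroup.subset_closure fun k' hk' => ?_, rfl⟩
        rw [hK, Subgroup.mem_subgroupOf] at hk' ⊢
        exact mul_mem (mul_mem (inv_mem hk) hk') hk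
      · refine (Subgroup.map_mono (hQG A B i f x y hf hfB hore)).trans ?_
        rw [MonoidHom.map_closure, Subgroup.closure_le]
        rintro _ ⟨t, ⟨htQ, ht⟩, rfl⟩
        have htG : rHom _ t ∈ G := (le_sup_right : QQ A ≤ G) ⟨t, htQ, rfl⟩
        refine ⟨⟨rHom _ t, htG⟩, Subgroup.subset_closure fun k' hk' => ?_, rfl⟩
        rw [hK, Subgroup.mem_subgroupOf] at hk' ⊢
        exact kk_comp i hKM t ht _ hk'
    rw [eq_top_iff]
    rintro ⟨x, hx⟩ -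
    obtain ⟨y, hy, hyx⟩ := h1 hx
    have : y = ⟨x, hx⟩ := Subtype.ext hyx
    rwa [← this]
  · intro hN
    have hu : (⟨1, 1, 1⟩ : Tri (Matrix (Fin 3) (Fin 3) A)) ∈ KK i := by
      rw [hKM]
      refine ⟨rfl, one_mem _, fun j k => ?_⟩
      show ∃ b, (1 : Matrix (Fin 3) (Fin 3) A) j k = i b
      rw [Matrix.one_apply]
      split_ifs
      · exact ⟨1, (map_one i).symm⟩
      · exact ⟨0, (map_zero i).symm⟩
    have hzG : z ∈ G := (le_sup_right : QQ A ≤ G) hzQ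
    have huG : (⟨1, 1, 1⟩ : Tri (Matrix (Fin 3) (Fin 3) A)) ∈ G := (le_sup_left : KK i ≤ G) hu
    have h1 := hN.conj_mem ⟨_, huG⟩ (by rw [hK, Subgroup.mem_subgroupOf]; exact hu) ⟨z, hzG⟩
    rw [hK, Subgroup.mem_subgroupOf] at h1
    have h2 : z * (⟨1, 1, 1⟩ : Tri (Matrix (Fin 3) (Fin 3) A)) * z⁻¹ ∈ KK i := h1
    have h3 : z * (⟨1, 1, 1⟩ : Tri (Matrix (Fin 3) (Fin 3) A)) * z⁻¹ =
        (rHom _ (sU f)⁻¹)⁻¹ * (⟨1, 1, 1⟩ : Tri (Matrix (Fin 3) (Fin 3) A)) * rHom _ (sU f)⁻¹ := by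
      rw [map_inv, inv_inv]
    rw [h3, rconj _ rfl, hKM] at h2
    obtain ⟨b, hb⟩ := h2.2.2 0 0
    apply hnf b
    rw [← hb]
    show ((1 : Matrix (Fin 3) (Fin 3) A) *
      (((sU f)⁻¹ : (Matrix (Fin 3) (Fin 3) A)ˣ) : Matrix (Fin 3) (Fin 3) A)) 0 0 = _
    rw [one_mul]
    show (Matrix.diagonal fun _ => ((f⁻¹ : Aˣ) : A)) 0 0 = _
    rw [Matrix.diagonal_apply_eq]

theorem exists_pair_of (hWHI : S_WHI) (hUNION : S_UNION) (hKM : S_KM) (hKT : S_KT) (hQG : S_QG)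
    (f x y : Aˣ) (hf : f = x * y * x⁻¹ * y⁻¹) (hfB : ∃ b, i b = f)
    (hnf : ∀ b, i b ≠ ((f⁻¹ : Aˣ) : A))
    (hore : ∀ z : A, ∃ (k : ℕ) (b : B), z * (f : A) ^ k = i b)
    (hTA : HasT (E3 A)) (hTB : HasT (E3 B)) :
    ∃ (G : Subgroup (Tri (Matrix (Fin 3) (Fin 3) A))) (K : Subgroup G), HasT G ∧ HasT K ∧
      Subgroup.closure {g : G | ∀ k ∈ K, g⁻¹ * k * g ∈ K} = ⊤ ∧ ¬ K.Normal :=
  ⟨_, exists_pair_of' i hWHI hUNION hKM hKT hQG f x y hf hfB hnf hore hTA hTB⟩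

end

end

end Pool.Agent.H365.TF
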