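import Pool.Agent.H365.TF.Fin2
import Pool.Agent.H365.Bridge

/-!
# Project TF: the theorems in the vocabulary of the problem file
-/

set_option autoImplicit false

namespace Pool.Agent.H365.TF

open Pool.Agent.W661.RC (HasT)

/-- a torsion-free Kazhdan group which is not hyperlinear -/
theorem kazhdan :
    ∃ (P : Type) (_ : Group P), Group.FG P ∧ PropertyT P ∧
      (∀ (g : P) (n : ℕ), 0 < n → g ^ n = 1 → g = 1) ∧ ¬ Hyperlinear P := by
  obtain ⟨P, i1, h1, h2, h3, h4⟩ := goal2
  exact ⟨P, i1, h2, propertyT_iff.2 h1, h3, h4⟩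

/-- a torsion-free split extension -/
theorem extension :
    ∃ (P : Type) (_ : Group P) (A : Subgroup P) (_ : A.Normal),
      Group.FG P ∧ (∀ (g : P) (n : ℕ), 0 < n → g ^ n = 1 → g = 1) ∧ ¬ Hyperlinear P ∧
      (∃ X : Type, Nonempty (A ≃* DirectPower X (Multiplicative ℤ))) ∧
      (∃ s : P ⧸ A →* P, ∀ q : P ⧸ A, QuotientGroup.mk (s q) = q) ∧
      ResiduallyFinite (P ⧸ A) ∧ PropertyT (P ⧸ A) ∧
      ∀ (g : P ⧸ A) (n : ℕ), 0 < n → g ^ n = 1 → g = 1 := by
  obtain ⟨G, _, X, _, hG, -, hrf, htf, hfg, hP, hn⟩ := goal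
  let W := WreathProduct (Multiplicative ℤ) X G
  let A : Subgroup W := (SemidirectProduct.rightHom : W →* G).ker
  let e : W ⧸ A ≃* G := QuotientGroup.quotientKerEquivOfSurjective
    (SemidirectProduct.rightHom : W →* G) SemidirectProduct.rightHom_surjective
  have he : ∀ w : W, e (QuotientGroup.mk w) = w.right := fun w => rfl
  have hA : A = (SemidirectProduct.inl : DirectPower X (Multiplicative ℤ) →* W).range :=
    SemidirectProduct.range_inl_eq_ker_rightHom.symm
  have hT : HasT (W ⧸ A) := hasT_quot e.symm.toMonoidHom e.symm.surjective hG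
  refine ⟨W, inferInstance, A, inferInstance, hfg, hP, hn, ⟨X, ⟨?_⟩⟩,
    ⟨(SemidirectProduct.inr : G →* W).comp e.toMonoidHom, fun q => ?_⟩, ?_, propertyT_iff.2 hT, ?_⟩
  · exact (MulEquiv.subgroupCongr hA).trans
      (MonoidHom.ofInjective SemidirectProduct.inl_injective).symm
  · apply e.injective
    rw [he]
    rfl
  · refine rf_of_hom fun q hq => ?_
    obtain ⟨N, h1, h2, h3⟩ := hrf (e q) fun h => hq (e.injective (by rw [h, map_one]))
    refine ⟨G ⧸ N, inferInstance, inferInstance, (QuotientGroup.mk' N).comp e.toMonoidHom,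
      fun h => h3 ((QuotientGroup.eq_one_iff _).1 h)⟩
  · intro g n hn0 hg
    apply e.injective
    rw [map_one]
    refine htf (e g) n hn0 ?_
    rw [← map_pow, hg, map_one]

end Pool.Agent.H365.TF
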