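import Pool.Agent.H365.LS.Stm
import Pool.Agent.H365.Wreath
import Pool.Agent.H365.RF

/-!
# Project TF: a finitely generated torsion-free group which is not hyperlinear

Statements of the lemmas, with complete paper proofs.

Idea. `H = BS(1,2) = ⟨a, f | a f a⁻¹ = f²⟩`, `A = ℤ[H]`, `B ⊂ A` the subring generated by `a`, `a⁻¹`, `f`.
Then `f = [a, f]`, `f⁻¹ ∉ B`, `A = B[f⁻¹]`. By the theorem HT of project LZ (every `E_9(R)`, `R` a finitely
generated ring, has property (T)) `Q = E_9(A)` and `E_9(B)` are Kazhdan groups; so are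
`K = {(g X; 0 1) | g ∈ E_9(B), X ∈ M_9(B)}` and the group `G` generated by `K` and the matrices `(1 0; 0 q)`,
`q ∈ Q`. The group `G` is generated by elements which conjugate `K` into itself, but `K` is not normal. So the
permutational wreath product `W = ℤ^(G/K) ⋊ G` is not hyperlinear. Finally `GL_9(ℤ[H])` is virtually
torsion-free (congruences modulo 5 and 7), so `G` and `W` are as well, and a torsion-free subgroup of finite
index in `W` is not hyperlinear either.
-/

set_option autoImplicit false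

namespace Pool.Agent.H365.TF

open Pool.Agent.N44.NS (E3 el)
open Pool.Agent.W661.RC (HasT)
open Pool.Agent.H21R2 (IsHyperlinear)
open Pool.Agent.H365 (WreathProduct)

noncomputable section

/-! ### The group `BS(1,2)` -/

/-- the normal subgroup `N` of finite index is residually finite-`ℓ`, by normal subgroups of `H` -/
def VRes (ℓ : ℕ) (H : Type) [Group H] (N : Subgroup H) : Prop :=
  N.Normal ∧ N.FiniteIndex ∧ ∀ S : Finset H, (1 : H) ∉ S →
    ∃ M : Subgroup H, M.Normal ∧ M.FiniteIndex ∧ M ≤ N ∧ (∃ k : ℕ, M.relIndex N = ℓ ^ k) ∧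
      ∀ s ∈ S, s ∉ M

/-- **BS.** The group `BS(1,2)`. Proof. One can take the affine maps `x ↦ 2^n x + r`, `n ∈ ℤ`,
`r ∈ ℤ[1/2]`, `a = (x ↦ 2 x)`, `f = (x ↦ x + 1)`; or: the subgroup generated by `a` and `f` of the product of
the groups `Equiv.Perm (ZMod (ℓ^j))`, `ℓ ∈ {5, 7}`, `j ∈ ℕ` (then the homomorphisms to the factors are for
free). Every element has the form `a^{-k} f^m a^l`, `k, l ∈ ℕ`, `m ∈ ℤ` (`f a^k = a^k f^{1/2^k}` ...: the set
of these elements is closed under multiplication: `a^l a^{-k'}` is a power of `a`, and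
`a^i f^m = f^{2^i m} a^i`, `f^m a^{-i} = a^{-i} f^{2^i m}` for `i ∈ ℕ`). Monoid: the elements
`a^{-k} f^m a^l` with `m ≥ 0` form a submonoid which contains `a`, `a⁻¹`, `f`, but not `f⁻¹`: `f⁻¹ = a^{-k} f^m a^l`
gives at `x = 0`: `-1 = m / 2^k` (modulo all `ℓ^j`), impossible. Since
`a^{-k} f^m a^l f^i = a^{-k} f^{m + 2^l i} a^l`, `h f^i` is in it for large `i`.
`VRes`: `N_ℓ` = the elements which act on `ZMod ℓ` as translations; for `j ≥ 1` let `M_j` be the subgroup of
the elements acting trivially on `ZMod (ℓ^j)`; `N_ℓ / M_j` embeds in the group of the maps `x ↦ u x + v` of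
`ZMod (ℓ^j)`, `u ≡ 1` modulo `ℓ`, which has order `ℓ^{2j - 1}`. If `1 ∉ S`, then `S ∩ M_j = ∅` for large `j`:
if `a^{-k} f^m a^l` acts trivially on `ZMod (ℓ^j)`, then `ℓ^j ∣ m` (`x = 0`) and `ℓ^j ∣ 2^l - 2^k`; for large
`j` this gives `m = 0`, `l = k`. -/
def S_BS : Prop := ∃ (H : Type) (_ : Group H) (a f : H), a * f * a⁻¹ = f ^ 2 ∧
  Subgroup.closure ({a, f} : Set H) = ⊤ ∧
  f⁻¹ ∉ Submonoid.closure ({a, a⁻¹, f} : Set H) ∧
  (∀ h : H, ∃ k : ℕ, h * f ^ k ∈ Submonoid.closure ({a, a⁻¹, f} : Set H)) ∧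
  (∃ N : Subgroup H, VRes 5 H N) ∧ (∃ N : Subgroup H, VRes 7 H N)

/-- **RNG.** The ring `A = ℤ[H]`. Proof. `B` = the elements with support in the monoid `M` generated by
`a, a⁻¹, f` (the range of `ℤ[M] → ℤ[H]`, or `Subring.closure`); `i` the inclusion. -/
def S_RNG : Prop := ∀ (H : Type) [Group H] (a f : H), a * f * a⁻¹ = f ^ 2 →
  Subgroup.closure ({a, f} : Set H) = ⊤ →
  f⁻¹ ∉ Submonoid.closure ({a, a⁻¹, f} : Set H) →
  (∀ h : H, ∃ k : ℕ, h * f ^ k ∈ Submonoid.closure ({a, a⁻¹, f} : Set H)) →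
  ∃ (B : Type) (_ : Ring B) (i : B →+* MonoidAlgebra ℤ H), Function.Injective i ∧
    (∃ T : Finset B, Subring.closure (T : Set B) = ⊤) ∧
    (∃ T : Finset (MonoidAlgebra ℤ H), Subring.closure (T : Set (MonoidAlgebra ℤ H)) = ⊤) ∧
    (∃ b, i b = MonoidAlgebra.of ℤ H f) ∧ (∀ b, i b ≠ MonoidAlgebra.of ℤ H f⁻¹) ∧
    ∀ x, ∃ (k : ℕ) (b : B), x * MonoidAlgebra.of ℤ H f ^ k = i b

/-! ### The pair of Kazhdan groups -/

/-- the matrices `(g x; 0 h)` -/
@[ext] structure Tri (S : Type) [Ring S] where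
  g : Sˣ
  x : S
  h : Sˣ

section Tri

variable {S : Type} [Ring S]

instance : Mul (Tri S) := ⟨fun u v => ⟨u.g * v.g, (u.g : S) * v.x + u.x * (v.h : S), u.h * v.h⟩⟩
instance : One (Tri S) := ⟨⟨1, 0, 1⟩⟩
instance : Inv (Tri S) := ⟨fun u => ⟨u.g⁻¹, -(((u.g⁻¹ : Sˣ) : S) * u.x * ((u.h⁻¹ : Sˣ) : S)), u.h⁻¹⟩⟩

theorem Tri.mul_g (u v : Tri S) : (u * v).g = u.g * v.g := rfl
theorem Tri.mul_x (u v : Tri S) : (u * v).x = (u.g : S) * v.x + u.x * (v.h : S) := rfl
theorem Tri.mul_h (u v : Tri S) : (u * v).h = u.h * v.h := rfl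
theorem Tri.one_g : (1 : Tri S).g = 1 := rfl
theorem Tri.one_x : (1 : Tri S).x = 0 := rfl
theorem Tri.one_h : (1 : Tri S).h = 1 := rfl
theorem Tri.inv_g (u : Tri S) : (u⁻¹).g = u.g⁻¹ := rfl
theorem Tri.inv_x (u : Tri S) :
    (u⁻¹).x = -(((u.g⁻¹ : Sˣ) : S) * u.x * ((u.h⁻¹ : Sˣ) : S)) := rfl
theorem Tri.inv_h (u : Tri S) : (u⁻¹).h = u.h⁻¹ := rfl

instance : Group (Tri S) :=
  Group.ofLeftAxioms
    (by
      intro u v w
      refine Tri.ext ?_ ?_ ?_
      · simp only [Tri.mul_g, mul_assoc]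
      · simp only [Tri.mul_x, Tri.mul_g, Tri.mul_h, Units.val_mul, mul_add, add_mul, mul_assoc,
          add_assoc]
      · simp only [Tri.mul_h, mul_assoc])
    (by
      intro u
      refine Tri.ext ?_ ?_ ?_
      · simp only [Tri.mul_g, Tri.one_g, one_mul]
      · simp only [Tri.mul_x, Tri.one_g, Tri.one_x, Units.val_one, one_mul, zero_mul, add_zero]
      · simp only [Tri.mul_h, Tri.one_h, one_mul])
    (by
      intro u
      refine Tri.ext ?_ ?_ ?_
      · simp only [Tri.mul_g, Tri.inv_g, Tri.one_g, inv_mul_cancel]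
      · simp only [Tri.mul_x, Tri.inv_g, Tri.inv_x, Tri.one_x]
        rw [neg_mul, mul_assoc _ _ (u.h : S), ← Units.val_mul, inv_mul_cancel, Units.val_one,
          mul_one, add_neg_cancel]
      · simp only [Tri.mul_h, Tri.inv_h, Tri.one_h, inv_mul_cancel])

/-- `g ↦ (g 0; 0 1)` -/
def lHom (S : Type) [Ring S] : Sˣ →* Tri S where
  toFun g := ⟨g, 0, 1⟩
  map_one' := rfl
  map_mul' u v := by
    refine Tri.ext rfl ?_ ?_
    · simp [Tri.mul_x]
    · simp [Tri.mul_h]

/-- `h ↦ (1 0; 0 h)` -/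
def rHom (S : Type) [Ring S] : Sˣ →* Tri S where
  toFun h := ⟨1, 0, h⟩
  map_one' := rfl
  map_mul' u v := by
    refine Tri.ext ?_ ?_ rfl
    · simp [Tri.mul_g]
    · simp [Tri.mul_x]

end Tri

section pair

variable {A B : Type} [Ring A] [Ring B]

/-- the image of `E_3(B)` in `GL_3(A)` -/
def EB (i : B →+* A) : Subgroup (Matrix (Fin 3) (Fin 3) A)ˣ :=
  (E3 B).map (Units.map (i.mapMatrix (m := Fin 3)).toMonoidHom)

/-- the group `K` of the matrices `(g x; 0 1)`, `g ∈ E_3(B)`, `x ∈ M_3(B)` -/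
def KK (i : B →+* A) : Subgroup (Tri (Matrix (Fin 3) (Fin 3) A)) :=
  Subgroup.closure {u | u.h = 1 ∧ u.g ∈ EB i ∧ ∀ j k, ∃ b, u.x j k = i b}

/-- the group `Q` of the matrices `(1 0; 0 h)`, `h ∈ E_3(A)` -/
def QQ (A : Type) [Ring A] : Subgroup (Tri (Matrix (Fin 3) (Fin 3) A)) := (E3 A).map (rHom _)

end pair

/-- **SEMI.** Property (T) for `V ⋊ L`. Proof. Let `ρ` be a representation of `L ⊔ V` with almost invariant
vectors. By property (T) of `L` (as in `Pool.Agent.H365.hasT_ext`, Pool/Agent/H365/Ext.lean, or the proof of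
`t_UNION`, Pool/Agent/H643/LS/UNION.lean) there is, for `δ > 0`, a unit vector `v` which is moved by at most `δ`
by the elements of `Y` and has distance at most `δ` from the `L`-invariant vectors; let `w` be its projection
to them: `‖w‖ ≥ 1 - δ`, `L` fixes `w`, and `‖y w - w‖ ≤ 3 δ` for `y ∈ Y`. So `‖[l, y] w - w‖ =
‖l y l⁻¹ y⁻¹ w - w‖ ≤ 6 δ` for `l ∈ L`, `y ∈ Y`, and `‖x w - w‖ ≤ 6 C δ` for all `x ∈ V` by `hC`. For small `δ` the
closed convex hull of the orbit `V w` does not contain `0`; its element `c` of minimal norm is fixed by `V`, and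
by `L`, as `l V w = V l w = V w`. -/
def S_SEMI : Prop := ∀ (P : Type) [Group P] (L V : Subgroup P) (Y : Finset P) (C : ℕ), HasT L →
  (∀ l ∈ L, ∀ x ∈ V, l * x * l⁻¹ ∈ V) → (∀ y ∈ Y, y ∈ V) →
  (∀ x ∈ V, ∃ w : List P, w.length ≤ C ∧ w.prod = x ∧
    ∀ u ∈ w, ∃ l ∈ L, ∃ y ∈ Y, u = l * y * l⁻¹ * y⁻¹) →
  HasT (L ⊔ V : Subgroup P)

/-- **KM.** Membership in `K`. Proof: the set is closed under multiplication and inversion, as the elements of
`EB i` and their inverses have entries in `i(B)`. -/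
def S_KM : Prop := ∀ (A B : Type) [Ring A] [Ring B] (i : B →+* A)
  (u : Tri (Matrix (Fin 3) (Fin 3) A)),
  u ∈ KK i ↔ u.h = 1 ∧ u.g ∈ EB i ∧ ∀ j k, ∃ b, u.x j k = i b

/-- **KT.** Property (T) of `K` (uses `S_SEMI`, `S_KM`). Proof. `L` = the image of `EB i` under `lHom` (a quotient of
`E3 B`: `Pool.Agent.H365.hasT_quot`), `V` = the elements `(1 x; 0 1)`, `x` with entries in `i(B)`,
`Y` = the nine elements `(1 ε_jk; 0 1)`, `ε_jk = Matrix.single j k 1`. For `l = (e_pj(i b) 0; 0 1)`, `p ≠ j`,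
`y = (1 ε_jk; 0 1)`: `l y l⁻¹ y⁻¹ = (1 i(b) ε_pk; 0 1)` as `e_pj(b) ε_jk = ε_jk + b ε_pk`. So every element of `V`
is a product of nine commutators (`C = 9`). `K = L ⊔ V` as `(g x; 0 1) = (1 x; 0 1)(g 0; 0 1)`. -/
def S_KT : Prop := ∀ (A B : Type) [Ring A] [Ring B] (i : B →+* A), HasT (E3 B) → HasT (KK i)

/-- **QG.** (uses `Pool.Agent.H365.LS.S_WHI`; compare `t_QGEN`, Pool/Agent/H828/LS/QGEN.lean.) `E_3(A)` is generated
by its elements with entries in `i(B)`. Proof. `D = dU j f ∈ E_3(A)` by WHI, as `f` is a commutator of units, and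
its entries `f`, `1`, `0` are in `i(B)`. For `x ∈ A` let `x f^k = i b`; then
`e_pj(x) = (dU j f)^k e_pj(i b) (dU j f)^{-k}`. -/
def S_QG : Prop := ∀ (A B : Type) [Ring A] [Ring B] (i : B →+* A) (f x y : Aˣ),
  f = x * y * x⁻¹ * y⁻¹ → (∃ b, i b = f) → (∀ z : A, ∃ (k : ℕ) (b : B), z * (f : A) ^ k = i b) →
  E3 A ≤ Subgroup.closure {t | t ∈ E3 A ∧
    ∀ j k, ∃ b, (t : Matrix (Fin 3) (Fin 3) A) j k = i b}

/-! ### Torsion -/

/-- **COP.** Coprime action. `X` is a finite vector space over `ZMod ℓ`, the `ℓ`-group `P` acts on it, `g` commutes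
with `P`, has order `r` prime to `ℓ`, and acts trivially on the coinvariants of `P`. Then `g = 1`.
Proof. Let `e = (1/r) ∑_{i < r} g^i`, a projection onto the fixed vectors of `g` which commutes with `P`, and
`Y = range (1 - e) = range (g - 1)`, a `P`-submodule. Write `I Z` for the span of the `ρ p z - z`, `p ∈ P`,
`z ∈ Z`. For `x ∈ X` we have `(g - 1) x ∈ I X`, so `(g - 1) x = (1 - e)(g - 1) x ∈ (1 - e) I X = I Y`; hence
`Y ⊆ I Y`. If `Y ≠ 0` then the finite `ℓ`-group `Y* = Hom(Y, ZMod ℓ)` has a non-zero element `λ` fixed by the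
`ℓ`-group `P` (`IsPGroup.card_modEq_card_fixedPoints`; `ℓ` divides `|Y*|`), and `λ` vanishes on `I Y = Y`:
contradiction. So `Y = 0` and `g = 1`. -/
def S_COP : Prop := ∀ (ℓ : ℕ) [Fact ℓ.Prime] (X : Type) [AddCommGroup X] [Module (ZMod ℓ) X] [Finite X]
  (P : Type) [Group P] [Finite P], IsPGroup ℓ P → ∀ (ρ : P →* Module.End (ZMod ℓ) X)
  (g : Module.End (ZMod ℓ) X) (r : ℕ), r.Coprime ℓ → g ^ r = 1 → (∀ p, g * ρ p = ρ p * g) →
  (∀ x : X, g x - x ∈ Submodule.span (ZMod ℓ) {z | ∃ (p : P) (y : X), z = ρ p y - y}) → g = 1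

/-- reduction modulo `ℓ` and the normal subgroup `M` -/
def red (ℓ : ℕ) {H : Type} [Group H] (M : Subgroup H) [M.Normal] :
    MonoidAlgebra ℤ H →+* MonoidAlgebra (ZMod ℓ) (H ⧸ M) :=
  (MonoidAlgebra.mapDomainRingHom (ZMod ℓ) (QuotientGroup.mk' M)).comp
    (MonoidAlgebra.mapRingHom H (Int.castRingHom (ZMod ℓ)))

/-- **NT1.** (uses `S_COP`) Proof. Let `R = (ZMod ℓ)[H/M]`, `X = ι → R`, on which `g` acts by left multiplication
with the matrix `red g` and the `ℓ`-group `P = N/M` (a subgroup of `H/M`) by right multiplication with (inverses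
of) group elements. The kernel of `R → (ZMod ℓ)[H/N]` is spanned by the `r (p - 1)`, `r ∈ R`, `p ∈ N/M`, and it is a
two-sided ideal; so all `(g - 1) x` lie in the span of the `y p - y`. By COP `g` acts trivially on `X`, so its
matrix over `R` is `1`. -/
def S_NT1 : Prop := ∀ (ℓ : ℕ) [Fact ℓ.Prime] (H : Type) [Group H] (N M : Subgroup H) [N.Normal]
  [M.Normal] [M.FiniteIndex], M ≤ N → (∃ k : ℕ, M.relIndex N = ℓ ^ k) →
  ∀ (ι : Type) [Fintype ι] [DecidableEq ι] (g : Matrix ι ι (MonoidAlgebra ℤ H)) (r : ℕ),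
    r.Coprime ℓ → g ^ r = 1 → g.map (red ℓ N) = 1 → g.map (red ℓ M) = 1

/-- **NT2.** (uses `S_NT1`) No `r`-torsion in a congruence subgroup. Proof. By NT1 `g - 1` has zero image modulo `ℓ`
and `M` for all the `M` of `VRes`. An entry `x` of `g - 1` has finite support; choose `M` which does not contain
`h⁻¹ h'` for `h ≠ h'` in the support: then `H → H/M` is injective on the support and all coefficients of `x` are
divisible by `ℓ`. So `g = 1 + ℓ y`. If `g ≠ 1` write `g = 1 + ℓ^k y`, `k ≥ 1`, with `y` not divisible by `ℓ`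
(look at a non-zero coefficient of `g - 1`). Then `1 = g^r = 1 + r ℓ^k y + ℓ^{2k} z`, so `r y = - ℓ^k z` is divisible
by `ℓ`, hence `y` is, as `r` is prime to `ℓ`: contradiction. -/
def S_NT2 : Prop := ∀ (ℓ : ℕ) [Fact ℓ.Prime] (H : Type) [Group H] (N : Subgroup H) [N.Normal],
  VRes ℓ H N →
  ∀ (ι : Type) [Fintype ι] [DecidableEq ι] (g : Matrix ι ι (MonoidAlgebra ℤ H)) (r : ℕ),
    r.Coprime ℓ → g ^ r = 1 → g.map (red ℓ N) = 1 → g = 1

/-- **TFS.** (uses `S_NT2`) Virtual torsion-freeness. Proof. The two rings `Matrix (Fin 3) (Fin 3) (Matrix (Fin 3)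
(Fin 3) R)` and `Matrix (Fin 3 × Fin 3) (Fin 3 × Fin 3) R` are isomorphic (`Matrix.compRingEquiv`). Let `U` be
the subgroup of `Tri S` of the `u` such that `u.g` and `u.h` are mapped to `1` by the reductions modulo `(5, N₅)` and
`(7, N₇)`: the kernel of a homomorphism to a finite group (units of matrices over a finite ring). If `u ∈ U` and
`u^n = 1`, `n > 0`, `u ≠ 1`, we may assume (powers) that `n` is prime; it is prime to `5` or to `7`, so
`u.g = u.h = 1` by NT2, and `(1 x; 0 1)^n = (1 n x; 0 1)`, so `x = 0`. -/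
def S_TFS : Prop := ∀ (H : Type) [Group H], (∃ N : Subgroup H, VRes 5 H N) →
  (∃ N : Subgroup H, VRes 7 H N) →
  ∃ U : Subgroup (Tri (Matrix (Fin 3) (Fin 3) (Matrix (Fin 3) (Fin 3) (MonoidAlgebra ℤ H)))),
    U.Normal ∧ U.FiniteIndex ∧ ∀ u ∈ U, ∀ n : ℕ, 0 < n → u ^ n = 1 → u = 1

/-- **RFT.** Residual finiteness. Proof. For `x ≠ 0` in `ℤ[H]` there is (by `VRes`, with `S` the quotients of the
elements of the support) a normal subgroup `M` of finite index such that `H → H/M` is injective on the support of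
`x`, and an `m > 0` which does not divide some coefficient, so `x` is not zero in the finite ring
`(ZMod m)[H/M]`. A ring homomorphism to a finite ring induces a homomorphism of `Tri` of the matrix rings to a
finite group. -/
def S_RFT : Prop := ∀ (H : Type) [Group H], (∃ N : Subgroup H, VRes 5 H N) →
  Pool.Agent.H365.IsRF
    (Tri (Matrix (Fin 3) (Fin 3) (Matrix (Fin 3) (Fin 3) (MonoidAlgebra ℤ H))))

/-! ### Group theory -/

/-- **FI.** A group with a normal hyperlinear subgroup of finite index is hyperlinear. Proof: induced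
representations. Let `s_1, ..., s_m` be representatives of `W / N`, `w s_i = s_{w i} c(w, i)` with `c(w, i) ∈ N`; then
`c(w w', i) = c(w, w' i) c(w', i)`. For an approximation `φ : N → U(n)` for the finite set of all
`c(w, i)`, `w ∈ A` and a small `ε` put `Φ(w)(e_i ⊗ v) = e_{w i} ⊗ φ(c(w, i)) v`, a unitary matrix of size `m n`
(`Φ(1) = 1` as `φ(1) = 1`). For `w ≠ 1`: if `w i = i` then `c(w, i) ≠ 1`, and the `i`-th block contributes
`‖φ(c(w, i)) - 1‖² ≥ 1`, and if `w i ≠ i` it contributes `2`; so `‖Φ(w) - 1‖ ≥ 1` in the normalised norm. The error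
is at most the maximum of the errors for the pairs `c(w, w' i)`, `c(w', i)`. (The definition of `IsHyperlinear` is
in `Pool.Agent.H21R2`; `Pool.Agent.H365.hyperlinear_iff` in Pool/Agent/H365/Bridge.lean gives the form of
Pool/Agent/H365/Defs.lean.) -/
def S_FI : Prop := ∀ (W : Type) [Group W] (N : Subgroup W) [N.Normal] [N.FiniteIndex],
  IsHyperlinear N → IsHyperlinear W

/-- **WFG.** The wreath product is finitely generated. Proof: by generators of `G` (`SemidirectProduct.inr`) and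
the elements `delta x₀ l`, `l` in a finite generating set of `L`, `x₀` the base point (`permute_delta`,
`delta_mul` in Pool/Agent/H365/Wreath.lean); every element of `DirectPower X L` is a finite product of `delta x l`,
and `G` acts transitively. -/
def S_WFG : Prop := ∀ (G L : Type) [Group G] [Group L] (K : Subgroup G), Group.FG G → Group.FG L →
  Group.FG (WreathProduct L (G ⧸ K) G)

/-- **TFI.** Property (T) passes to subgroups of finite index. Proof: induced representations. Let `s_1, ..., s_m` be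
representatives of `G / N`, `g s_i = s_{g i} c(g, i)`. A representation `ρ` of `N` on `H` with almost invariant
vectors induces one of `G` on `H^m` (`PiLp 2`): `(g ψ)(g i) = ρ(c(g, i)) ψ(i)`; if `v` is almost invariant for the
`c(g, i)` then `(v, ..., v)/√m` is almost invariant. So there is an invariant vector `ψ ≠ 0` for `G`; some
`ψ(i) ≠ 0`; for `n ∈ N` the element `g = s_i n s_i⁻¹` fixes `i` and `c(g, i) = n`, so `ρ(n) ψ(i) = ψ(i)`. -/
def S_TFI : Prop := ∀ (G : Type) [Group G] (N : Subgroup G) [N.FiniteIndex], HasT G → HasT N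

end

end Pool.Agent.H365.TF
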